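import Pool.Agent.L5helper98.ID.Defs

set_option autoImplicit false

open MeasureTheory ProbabilityTheory Filter Topology Set
open scoped ENNReal BoundedContinuousFunction

namespace Pool.Agent.L5helper78.ID

open Pool.Agent.L5helper98.ID

theorem TON_b_holds (hMGF : St_MGF) : St_TON := by
  intro G μ Ω _ P _ ω hG hGm hF
  set f : ℝ → Ω → ℝ≥0∞ := fun u o => ENNReal.ofReal (Real.exp (ω u o)) with hf
  set g : ℝ → ℝ := fun t => μ * G t with hg
  have hfm : Measurable (fun p : ℝ × Ω => f p.1 p.2) :=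
    (Real.measurable_exp.comp hF.meas).ennreal_ofReal
  have hfo : ∀ o, Measurable (fun u => f u o) := fun o =>
    hfm.comp (measurable_id.prodMk measurable_const)
  have hfx : ∀ x, Measurable (f x) := fun x =>
    hfm.comp (measurable_const.prodMk measurable_id)
  set A : Ω → ℝ≥0∞ := fun o => ∫⁻ u in D, f u o with hA
  have hAm : Measurable A := by
    have h1 : Measurable (fun p : Ω × ℝ => f p.2 p.1) :=
      hfm.comp (measurable_snd.prodMk measurable_fst)
    exact h1.lintegral_prod_right'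
  -- the basic step
  have hL : ∀ h : Ω → ℝ≥0∞, Measurable h →
      ∫⁻ o, h o * A o ∂P = ∫⁻ x in D, ∫⁻ o, h o * f x o ∂P := by
    intro h hh
    have h1 : ∀ o, h o * A o = ∫⁻ x in D, h o * f x o := by
      intro o
      rw [lintegral_const_mul _ (hfo o)]
    simp_rw [h1]
    rw [lintegral_lintegral_swap]
    have h2 : Measurable (fun p : Ω × ℝ => h p.1 * f p.2 p.1) :=
      (hh.comp measurable_fst).mul (hfm.comp (measurable_snd.prodMk measurable_fst))
    exact h2.aemeasurable
  have hexp : ∀ a b : ℝ, ENNReal.ofReal (Real.exp a) * ENNReal.ofReal (Real.exp b)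
      = ENNReal.ofReal (Real.exp (a + b)) := by
    intro a b
    rw [← ENNReal.ofReal_mul (Real.exp_pos _).le, ← Real.exp_add]
  -- moments
  have m1 : ∀ x, ∫⁻ o, f x o ∂P = 1 := by
    intro x
    have h := hMGF G μ Ω P ω hG hF 1 ![x]
    have e : ∀ i : Fin 1, (Finset.univ.filter (fun j : Fin 1 => i < j)) = ∅ := by decide
    simp only [e, Finset.sum_empty, Finset.sum_const_zero, Real.exp_zero, ENNReal.ofReal_one] at h
    simpa using h
  have m2 : ∀ x y, ∫⁻ o, f x o * f y o ∂P = ee g x y := by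
    intro x y
    have h := hMGF G μ Ω P ω hG hF 2 ![x, y]
    simp only [hf, hexp]
    simpa [Finset.sum_filter, Fin.sum_univ_succ, ee, hg] using h
  have m3 : ∀ x y z, ∫⁻ o, f x o * f y o * f z o ∂P = ee g x y * ee g x z * ee g y z := by
    intro x y z
    have h := hMGF G μ Ω P ω hG hF 3 ![x, y, z]
    simp only [hf, hexp, ee, hg]
    simpa [Finset.sum_filter, Fin.sum_univ_succ, add_assoc] using h
  have m4 : ∀ x y z w, ∫⁻ o, f x o * f y o * f z o * f w o ∂P =
      ee g x y * ee g x z * ee g x w * ee g y z * ee g y w * ee g z w := by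
    intro x y z w
    have h := hMGF G μ Ω P ω hG hF 4 ![x, y, z, w]
    simp only [hf, hexp, ee, hg]
    simpa [Finset.sum_filter, Fin.sum_univ_succ, add_assoc] using h
  refine ⟨?_, ?_, ?_, ?_⟩
  · have h := hL (fun _ => 1) measurable_const
    simp only [one_mul] at h
    rw [h]
    simp_rw [m1]
    rw [lintegral_one, Measure.restrict_apply_univ, D, Real.volume_Ioo]
    congr 1
    ring
  · calc ∫⁻ o, A o ^ 2 ∂P = ∫⁻ o, A o * A o ∂P := by simp_rw [sq]
      _ = ∫⁻ x in D, ∫⁻ o, A o * f x o ∂P := hL A hAm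
      _ = ∫⁻ x in D, ∫⁻ o, f x o * A o ∂P := by simp_rw [mul_comm]
      _ = ∫⁻ x in D, ∫⁻ y in D, ∫⁻ o, f x o * f y o ∂P := by
          refine lintegral_congr fun x => ?_
          exact hL (f x) (hfx x)
      _ = _ := by simp_rw [m2]
  · calc ∫⁻ o, A o ^ 3 ∂P = ∫⁻ o, A o ^ 2 * A o ∂P := by simp_rw [pow_succ]
      _ = ∫⁻ x in D, ∫⁻ o, A o ^ 2 * f x o ∂P := hL (fun o => A o ^ 2) (hAm.pow_const 2)
      _ = ∫⁻ x in D, ∫⁻ o, (f x o * A o) * A o ∂P := by
          refine lintegral_congr fun x => lintegral_congr fun o => ?_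
          ring
      _ = ∫⁻ x in D, ∫⁻ y in D, ∫⁻ o, (f x o * A o) * f y o ∂P := by
          refine lintegral_congr fun x => ?_
          exact hL (fun o => f x o * A o) ((hfx x).mul hAm)
      _ = ∫⁻ x in D, ∫⁻ y in D, ∫⁻ o, (f x o * f y o) * A o ∂P := by
          refine lintegral_congr fun x => lintegral_congr fun y => lintegral_congr fun o => ?_
          ring
      _ = ∫⁻ x in D, ∫⁻ y in D, ∫⁻ z in D, ∫⁻ o, f x o * f y o * f z o ∂P := by
          refine lintegral_congr fun x => lintegral_congr fun y => ?_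
          exact hL (fun o => f x o * f y o) ((hfx x).mul (hfx y))
      _ = _ := by simp_rw [m3]
  · calc ∫⁻ o, A o ^ 4 ∂P = ∫⁻ o, A o ^ 3 * A o ∂P := by simp_rw [pow_succ]
      _ = ∫⁻ x in D, ∫⁻ o, A o ^ 3 * f x o ∂P := hL (fun o => A o ^ 3) (hAm.pow_const 3)
      _ = ∫⁻ x in D, ∫⁻ o, (f x o * A o ^ 2) * A o ∂P := by
          refine lintegral_congr fun x => lintegral_congr fun o => ?_
          ring
      _ = ∫⁻ x in D, ∫⁻ y in D, ∫⁻ o, (f x o * A o ^ 2) * f y o ∂P := by
          refine lintegral_congr fun x => ?_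
          exact hL (fun o => f x o * A o ^ 2) ((hfx x).mul (hAm.pow_const 2))
      _ = ∫⁻ x in D, ∫⁻ y in D, ∫⁻ o, (f x o * f y o * A o) * A o ∂P := by
          refine lintegral_congr fun x => lintegral_congr fun y => lintegral_congr fun o => ?_
          ring
      _ = ∫⁻ x in D, ∫⁻ y in D, ∫⁻ z in D, ∫⁻ o, (f x o * f y o * A o) * f z o ∂P := by
          refine lintegral_congr fun x => lintegral_congr fun y => ?_
          exact hL (fun o => f x o * f y o * A o) (((hfx x).mul (hfx y)).mul hAm)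
      _ = ∫⁻ x in D, ∫⁻ y in D, ∫⁻ z in D, ∫⁻ o, (f x o * f y o * f z o) * A o ∂P := by
          refine lintegral_congr fun x => lintegral_congr fun y => lintegral_congr fun z =>
            lintegral_congr fun o => ?_
          ring
      _ = ∫⁻ x in D, ∫⁻ y in D, ∫⁻ z in D, ∫⁻ w in D, ∫⁻ o, f x o * f y o * f z o * f w o ∂P := by
          refine lintegral_congr fun x => lintegral_congr fun y => lintegral_congr fun z => ?_
          exact hL (fun o => f x o * f y o * f z o) (((hfx x).mul (hfx y)).mul (hfx z))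
      _ = _ := by simp_rw [m4]

end Pool.Agent.L5helper78.ID
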